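import Pool.Agent.H.MP_1c6531_pr.Volume
import Pool.Agent.H.MP_1c6531_pr.PL

set_option autoImplicit false

/-!
Lower bound for the probability that a given distance is below `1`.
-/

namespace Pool.Agent.H.MP_1c6531_pr

open MeasureTheory Set
open scoped ENNReal

variable {n : ℕ}

/-- `E (x - d_e)^+` -/
noncomputable def RR (n : ℕ) (e : Pair n) (x : ℝ) : ℝ := av n (fun d => max (x - d e) 0)

/-- `P (a < d_e ≤ b)` -/
noncomputable def PP (n : ℕ) (e : Pair n) (a b : ℝ) : ℝ :=
  av n (fun d => (Ioc a b).indicator (fun _ => (1:ℝ)) (d e))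

lemma integrable_comp {h : ℝ → ℝ} (hm : Measurable h) {C : ℝ} (hC : ∀ x ∈ Ioc (0:ℝ) 2, |h x| ≤ C)
    (e : Pair n) : IntegrableOn (fun d : Pair n → ℝ => h (d e)) (metricSet n) :=
  integrable_of_bdd (hm.comp (measurable_pi_apply e)) (fun _ hd => hC _ (hd.1 e))

lemma int_max (e : Pair n) (x : ℝ) :
    IntegrableOn (fun d : Pair n → ℝ => max (x - d e) 0) (metricSet n) := by
  refine integrable_comp (h := fun t => max (x - t) 0) (by fun_prop) (C := |x| + 2) ?_ e
  intro t ht
  rw [abs_of_nonneg (le_max_right _ _)]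
  refine max_le ?_ (by positivity)
  have := le_abs_self x
  linarith [ht.1]

lemma int_ind (e : Pair n) (a b : ℝ) :
    IntegrableOn (fun d : Pair n → ℝ => (Ioc a b).indicator (fun _ => (1:ℝ)) (d e)) (metricSet n) := by
  refine integrable_comp (h := (Ioc a b).indicator (fun _ => (1:ℝ)))
    (measurable_const.indicator measurableSet_Ioc) (C := 1) ?_ e
  intro t _
  by_cases h : t ∈ Ioc a b
  · rw [indicator_of_mem h]; simp
  · rw [indicator_of_notMem h]; simp

lemma RR_nonneg (e : Pair n) (x : ℝ) : 0 ≤ RR n e x := by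
  have h := av_mono (n := n) (F := fun _ => 0) (integrable_const _) (int_max e x)
    (fun d _ => le_max_right _ _)
  rwa [av_const] at h

lemma PP_nonneg (e : Pair n) (a b : ℝ) : 0 ≤ PP n e a b := by
  have h := av_mono (n := n) (F := fun _ => 0) (integrable_const _) (int_ind e a b)
    (fun d _ => indicator_nonneg (fun _ _ => zero_le_one) _)
  rwa [av_const] at h

lemma PP_le_one (e : Pair n) (a b : ℝ) : PP n e a b ≤ 1 := by
  have h := av_mono (n := n) (G := fun _ => 1) (int_ind e a b) (integrable_const _)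
    (fun d _ => by
      by_cases h : d e ∈ Ioc a b
      · rw [indicator_of_mem h]
      · rw [indicator_of_notMem h]; exact zero_le_one)
  rwa [av_const] at h

/-- Gibbs inequality for three-piece functions -/
lemma gibbs3 {s τ a b : ℝ} (hs : 0 < s) (hτ0 : 0 ≤ τ) (hτ1 : τ ≤ 1) (ha : 0 < a) (hb : 0 < b)
    (hsum : 1 / s + a * τ + b * (1 - τ) ≤ 1) (e : Pair n) :
    Real.log (vol n) ≤ Fintype.card (Pair n) *
      (s * RR n e 1 - Real.log a * PP n e 1 (1 + τ) - Real.log b * PP n e (1 + τ) 2) := by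
  set h : ℝ → ℝ := fun x => -s * max (1 - x) 0 + Real.log a * (Ioc 1 (1 + τ)).indicator (fun _ => (1:ℝ)) x
    + Real.log b * (Ioc (1 + τ) 2).indicator (fun _ => (1:ℝ)) x with hh
  have hm : Measurable h := by
    have h1 : Measurable ((Ioc 1 (1 + τ)).indicator (fun _ => (1:ℝ))) :=
      measurable_const.indicator measurableSet_Ioc
    have h2 : Measurable ((Ioc (1 + τ) 2).indicator (fun _ => (1:ℝ))) :=
      measurable_const.indicator measurableSet_Ioc
    have h3 : Measurable (fun x : ℝ => -s * max (1 - x) 0) := by fun_prop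
    exact (h3.add (h1.const_mul _)).add (h2.const_mul _)
  have v1 : ∀ x ∈ Ioc (0:ℝ) 1, h x = -s * (1 - x) := by
    intro x hx
    simp only [hh]
    rw [indicator_of_notMem (fun h => absurd h.1 (not_lt.2 hx.2)),
      indicator_of_notMem (fun h => absurd (lt_of_le_of_lt (by linarith : (1:ℝ) ≤ 1 + τ) h.1)
        (not_lt.2 hx.2)), max_eq_left (by linarith [hx.2])]
    ring
  have v2 : ∀ x ∈ Ioc (1:ℝ) (1 + τ), h x = Real.log a := by
    intro x hx
    simp only [hh]
    rw [indicator_of_mem hx, indicator_of_notMem (fun h => absurd h.1 (not_lt.2 hx.2)),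
      max_eq_right (by linarith [hx.1])]
    ring
  have v3 : ∀ x ∈ Ioc (1 + τ) (2:ℝ), h x = Real.log b := by
    intro x hx
    simp only [hh]
    rw [indicator_of_notMem (fun h => absurd hx.1 (not_lt.2 h.2)), indicator_of_mem hx,
      max_eq_right (by linarith [hx.1])]
    ring
  have hC : ∀ x ∈ Ioc (0:ℝ) 2, |h x| ≤ s + |Real.log a| + |Real.log b| := by
    intro x hx
    have p1 := abs_nonneg (Real.log a)
    have p2 := abs_nonneg (Real.log b)
    rcases le_or_gt x 1 with h1 | h1
    · rw [v1 x ⟨hx.1, h1⟩, abs_mul, abs_neg, abs_of_pos hs, abs_of_nonneg (by linarith)]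
      nlinarith [hx.1]
    · rcases le_or_gt x (1 + τ) with h2 | h2
      · rw [v2 x ⟨h1, h2⟩]; linarith
      · rw [v3 x ⟨h2, hx.2⟩]; linarith
  have hint : ∫ x in Ioc (0:ℝ) 2, Real.exp (h x) ≤ 1 := by
    have ii : ∀ u v : ℝ, 0 ≤ u → u ≤ v → v ≤ 2 → IntervalIntegrable (fun x => Real.exp (h x)) volume u v := by
      intro u v hu huv hv
      rw [intervalIntegrable_iff_integrableOn_Ioc_of_le huv]
      refine Measure.integrableOn_of_bounded (M := Real.exp (s + |Real.log a| + |Real.log b|)) (by simp)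
        (Real.continuous_exp.measurable.comp hm).aestronglyMeasurable ?_
      rw [ae_restrict_iff' measurableSet_Ioc]
      refine Filter.Eventually.of_forall (fun x hx => ?_)
      rw [Real.norm_eq_abs, abs_of_pos (Real.exp_pos _)]
      exact Real.exp_le_exp.2 ((le_abs_self _).trans
        (hC x ⟨lt_of_le_of_lt hu hx.1, hx.2.trans hv⟩))
    rw [← intervalIntegral.integral_of_le (by norm_num : (0:ℝ) ≤ 2)]
    rw [← intervalIntegral.integral_add_adjacent_intervals (ii 0 1 le_rfl zero_le_one one_le_two)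
      (ii 1 2 zero_le_one one_le_two le_rfl),
      ← intervalIntegral.integral_add_adjacent_intervals
      (ii 1 (1 + τ) zero_le_one (by linarith) (by linarith))
      (ii (1 + τ) 2 (by linarith) (by linarith) le_rfl)]
    have i1 : ∫ x in (0:ℝ)..1, Real.exp (h x) ≤ 1 / s := by
      have e1 : ∫ x in (0:ℝ)..1, Real.exp (h x) = ∫ x in (0:ℝ)..1, Real.exp (-s * (1 - x)) := by
        rw [intervalIntegral.integral_of_le zero_le_one, intervalIntegral.integral_of_le zero_le_one]
        exact setIntegral_congr_fun measurableSet_Ioc (fun x hx => by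
          show Real.exp (h x) = _
          rw [v1 x hx])
      have e2 : ∫ x in (0:ℝ)..1, Real.exp (-s * (1 - x)) =
          Real.exp (-s * (1 - 1)) / s - Real.exp (-s * (1 - 0)) / s := by
        refine intervalIntegral.integral_eq_sub_of_hasDerivAt
          (f := fun x => Real.exp (-s * (1 - x)) / s) (fun x _ => ?_)
          (Continuous.intervalIntegrable (by fun_prop) _ _)
        have h1 : HasDerivAt (fun x : ℝ => -s * (1 - x)) s x := by
          have := ((hasDerivAt_id x).const_sub 1).const_mul (-s)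
          simpa using this
        have h2 := (h1.exp).div_const s
        refine h2.congr_deriv ?_
        field_simp
      rw [e1, e2]
      have : 0 ≤ Real.exp (-s * (1 - 0)) / s := by positivity
      simp only [sub_self, mul_zero, Real.exp_zero]
      linarith
    have i2 : ∫ x in (1:ℝ)..(1 + τ), Real.exp (h x) = a * τ := by
      have e1 : ∫ x in (1:ℝ)..(1 + τ), Real.exp (h x) = ∫ x in (1:ℝ)..(1 + τ), a := by
        rw [intervalIntegral.integral_of_le (by linarith), intervalIntegral.integral_of_le (by linarith)]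
        exact setIntegral_congr_fun measurableSet_Ioc (fun x hx => by
          show Real.exp (h x) = _
          rw [v2 x hx, Real.exp_log ha])
      rw [e1, intervalIntegral.integral_const, smul_eq_mul]
      ring
    have i3 : ∫ x in (1 + τ)..(2:ℝ), Real.exp (h x) = b * (1 - τ) := by
      have e1 : ∫ x in (1 + τ)..(2:ℝ), Real.exp (h x) = ∫ x in (1 + τ)..(2:ℝ), b := by
        rw [intervalIntegral.integral_of_le (by linarith), intervalIntegral.integral_of_le (by linarith)]
        exact setIntegral_congr_fun measurableSet_Ioc (fun x hx => by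
          show Real.exp (h x) = _
          rw [v3 x hx, Real.exp_log hb])
      rw [e1, intervalIntegral.integral_const, smul_eq_mul]
      ring
    rw [i2, i3]
    linarith
  have hg := gibbs hm hC hint e
  have hav : av n (fun d => h (d e)) =
      -(s * RR n e 1) + Real.log a * PP n e 1 (1 + τ) + Real.log b * PP n e (1 + τ) 2 := by
    have j1 := (int_max e 1).const_mul (-s)
    have j2 := (int_ind e 1 (1 + τ)).const_mul (Real.log a)
    have j3 := (int_ind e (1 + τ) 2).const_mul (Real.log b)
    have a1 := av_add (n := n) (F := fun d => -s * max (1 - d e) 0 + Real.log a *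
      (Ioc 1 (1 + τ)).indicator (fun _ => (1:ℝ)) (d e)) (G := fun d => Real.log b *
      (Ioc (1 + τ) 2).indicator (fun _ => (1:ℝ)) (d e)) (j1.add j2) j3
    have a2 := av_add (n := n) (F := fun d => -s * max (1 - d e) 0) (G := fun d => Real.log a *
      (Ioc 1 (1 + τ)).indicator (fun _ => (1:ℝ)) (d e)) j1 j2
    simp only [hh]
    rw [a1, a2, av_mul, av_mul, av_mul]
    unfold RR PP
    ring
  rw [hav] at hg
  nlinarith

lemma vol_le (n : ℕ) : Real.log (vol n) ≤ Fintype.card (Pair n) * Real.log 2 := by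
  have h1 : vol n ≤ 2 ^ Fintype.card (Pair n) := by
    unfold vol
    have h2 : volume (metricSet n) ≤ 2 ^ Fintype.card (Pair n) := by
      refine (measure_mono metricSet_subset).trans ?_
      rw [volume_pi_pi]
      simp
    have h3 := ENNReal.toReal_mono (by simp) h2
    simpa using h3
  have := Real.log_le_log (vol_pos n) h1
  rwa [Real.log_pow] at this

/-- step 1 -/
lemma RR_one_ge (e : Pair n) :
    (Real.log (vol n) / (3 * Fintype.card (Pair n))) ^ 2 ≤ RR n e 1 := by
  have hN : (0:ℝ) < Fintype.card (Pair n) := by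
    have : 0 < Fintype.card (Pair n) := Fintype.card_pos_iff.2 ⟨e⟩
    exact_mod_cast this
  set N : ℝ := ((Fintype.card (Pair n) : ℕ) : ℝ) with hNdef
  set y : ℝ := Real.log (vol n) / (3 * N) with hy
  have hlogV : Real.log (vol n) = 3 * N * y := by rw [hy]; field_simp
  have hy0 : 0 ≤ y := by
    rw [hy]
    have := Real.log_nonneg (one_le_vol n)
    positivity
  have hm0 := RR_nonneg e 1
  rcases eq_or_lt_of_le hy0 with h0 | h0
  · rw [← h0]; simpa using hm0
  by_contra hc
  push Not at hc
  have hy2 : y ≤ 1 / 2 := by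
    have h1 := vol_le n
    rw [hlogV, ← hNdef] at h1
    have h2 : 3 * y ≤ Real.log 2 := by
      have : N * (3 * y) ≤ N * Real.log 2 := by linarith
      exact le_of_mul_le_mul_left this hN
    have h3 : Real.log 2 < 1 := by
      have := Real.log_two_lt_d9
      linarith
    linarith
  have hg := gibbs3 (s := 1 / y) (τ := 0) (a := 1) (b := 1 - y) (by positivity) le_rfl zero_le_one
    one_pos (by linarith) (by
      have : 1 / (1 / y) = y := by field_simp
      rw [this]; linarith) e
  rw [Real.log_one, zero_mul, sub_zero, add_zero, hlogV, ← hNdef] at hg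
  have h4 : 3 * y ≤ 1 / y * RR n e 1 - Real.log (1 - y) * PP n e 1 2 := by
    have : N * (3 * y) ≤ N * (1 / y * RR n e 1 - Real.log (1 - y) * PP n e 1 2) := by linarith
    exact le_of_mul_le_mul_left this hN
  have h5 : 1 / y * RR n e 1 < y := by
    rw [one_div, inv_mul_lt_iff₀ h0, ← sq]
    exact hc
  have h6 : -Real.log (1 - y) * PP n e 1 2 ≤ 2 * y := by
    have h7 : -Real.log (1 - y) ≤ 2 * y := by
      have h8 := Real.one_sub_inv_le_log_of_pos (show 0 < 1 - y by linarith)
      have h9 : 1 - (1 - y)⁻¹ = -(y / (1 - y)) := by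
        have : (1 - y) ≠ 0 := by linarith
        field_simp
        ring
      have h10 : y / (1 - y) ≤ 2 * y := by
        rw [div_le_iff₀ (by linarith)]
        nlinarith
      linarith
    have h8 : 0 ≤ -Real.log (1 - y) := by
      have := Real.log_nonpos (show 0 ≤ 1 - y by linarith) (by linarith)
      linarith
    have h9 := PP_le_one e 1 2
    have h10 := PP_nonneg e 1 2
    nlinarith
  linarith

lemma PP_split (e : Pair n) (t : ℝ) (ht0 : 0 ≤ t) (ht : t ≤ 2) : PP n e 0 t + PP n e t 2 = 1 := by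
  have h0 : av n (fun _ : Pair n → ℝ => (1:ℝ)) = 1 := av_const 1
  rw [← h0]
  unfold PP
  rw [← av_add (int_ind e 0 t) (int_ind e t 2)]
  unfold av
  congr 1
  refine setIntegral_congr_fun (measurableSet_metricSet n) (fun d hd => ?_)
  have h1 := (hd.1 e).1
  have h2 := (hd.1 e).2
  show (Ioc 0 t).indicator (fun _ => (1:ℝ)) (d e) + (Ioc t 2).indicator (fun _ => (1:ℝ)) (d e) = 1
  rcases le_or_gt (d e) t with h | h
  · rw [indicator_of_mem (show d e ∈ Ioc 0 t from ⟨h1, h⟩),
      indicator_of_notMem (fun h' => absurd h'.1 (not_lt.2 h))]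
    ring
  · rw [indicator_of_notMem (fun h' => absurd h (not_lt.2 h'.2)),
      indicator_of_mem (show d e ∈ Ioc t 2 from ⟨h, h2⟩)]
    ring

lemma PP_mono (e : Pair n) {a a' b : ℝ} (h : a ≤ a') : PP n e a' b ≤ PP n e a b := by
  unfold PP
  refine av_mono (int_ind e a' b) (int_ind e a b) (fun d _ => ?_)
  exact indicator_le_indicator_of_subset (Ioc_subset_Ioc_left h) (fun _ => zero_le_one) _

/-- step 2 -/
lemma PP_ge (e : Pair n) {y : ℝ} (hy0 : 0 < y) (hy1 : y ≤ 1 / 32) (hy : RR n e 1 = y ^ 2) :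
    y / 8 ≤ PP n e 0 (1 + 8 * y) := by
  have hN : (0:ℝ) < Fintype.card (Pair n) := by
    have : 0 < Fintype.card (Pair n) := Fintype.card_pos_iff.2 ⟨e⟩
    exact_mod_cast this
  by_contra hc
  push Not at hc
  set γ : ℝ := (1 - 5 * y) / (1 - 8 * y) with hγ
  have h8 : 0 < 1 - 8 * y := by linarith
  have hγ0 : 0 < γ := by
    rw [hγ]
    have : 0 < 1 - 5 * y := by linarith
    positivity
  have hg := gibbs3 (s := 1 / y) (τ := 8 * y) (a := 1 / 2) (b := γ) (by positivity) (by positivity)
    (by linarith) (by norm_num) hγ0 (by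
      have e1 : 1 / (1 / y) = y := by field_simp
      have e2 : γ * (1 - 8 * y) = 1 - 5 * y := by rw [hγ, div_mul_cancel₀ _ h8.ne']
      rw [e1, e2]; linarith) e
  have hV := Real.log_nonneg (one_le_vol n)
  have h1 : 0 ≤ 1 / y * RR n e 1 - Real.log (1 / 2) * PP n e 1 (1 + 8 * y) -
      Real.log γ * PP n e (1 + 8 * y) 2 := by
    have h2 := hV.trans hg
    exact nonneg_of_mul_nonneg_right h2 hN
  rw [hy] at h1
  have e1 : 1 / y * y ^ 2 = y := by field_simp
  have e2 : Real.log (1 / 2) = -Real.log 2 := by rw [one_div, Real.log_inv]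
  rw [e1, e2] at h1
  have h2 : PP n e 1 (1 + 8 * y) ≤ PP n e 0 (1 + 8 * y) := PP_mono e zero_le_one
  have h3 := PP_split e (1 + 8 * y) (by linarith) (by linarith)
  have h4 : Real.log 2 < 7 / 10 := by
    have := Real.log_two_lt_d9
    linarith
  have h4' : 0 < Real.log 2 := Real.log_pos one_lt_two
  have h5 : 96 / 35 * y ≤ Real.log γ := by
    have h6 : 1 + 3 * y ≤ γ := by
      rw [hγ, le_div_iff₀ h8]
      nlinarith
    have h7 : Real.log (1 + 3 * y) ≤ Real.log γ := Real.log_le_log (by linarith) h6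
    have h9 := Real.one_sub_inv_le_log_of_pos (show 0 < 1 + 3 * y by linarith)
    have h10 : 1 - (1 + 3 * y)⁻¹ = 3 * y / (1 + 3 * y) := by field_simp; ring
    have h11 : 96 / 35 * y ≤ 3 * y / (1 + 3 * y) := by
      rw [le_div_iff₀ (by linarith)]
      nlinarith
    linarith
  have h6 := PP_nonneg e 1 (1 + 8 * y)
  have h7 := PP_nonneg e 0 (1 + 8 * y)
  have h9 : Real.log 2 * PP n e 1 (1 + 8 * y) ≤ 7 / 10 * (y / 8) := by
    have : PP n e 1 (1 + 8 * y) ≤ y / 8 := h2.trans hc.le
    calc Real.log 2 * PP n e 1 (1 + 8 * y) ≤ 7 / 10 * PP n e 1 (1 + 8 * y) := by gcongr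
      _ ≤ 7 / 10 * (y / 8) := by gcongr
  have h10 : 96 / 35 * y * (1 - y / 8) ≤ Real.log γ * PP n e (1 + 8 * y) 2 := by
    have h11 : 1 - y / 8 ≤ PP n e (1 + 8 * y) 2 := by linarith
    have h12 : 0 ≤ 1 - y / 8 := by linarith
    have h13 : 0 ≤ Real.log γ := le_trans (by positivity) h5
    calc 96 / 35 * y * (1 - y / 8) ≤ Real.log γ * (1 - y / 8) := by gcongr
      _ ≤ Real.log γ * PP n e (1 + 8 * y) 2 := by gcongr
  have h11 : 96 / 35 * y * (1 - 1 / 256) ≤ 96 / 35 * y * (1 - y / 8) := by
    have : 1 - 1 / 256 ≤ 1 - y / 8 := by linarith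
    gcongr
  nlinarith

/-- step 3: log-concavity -/
lemma RR_logconcave (e : Pair n) {a b : ℝ} (ha : 0 < a) (hb : 0 < b) (hab : a + b = 1) (x y : ℝ) :
    (RR n e x) ^ a * (RR n e y) ^ b ≤ RR n e (a * x + b * y) := by
  classical
  set f : ℝ → (Pair n → ℝ) → ℝ := fun x => (metricSet n).indicator (fun d => max (x - d e) 0) with hf
  have hfm : ∀ x, Measurable (fun d => ENNReal.ofReal (f x d)) := by
    intro x
    refine ENNReal.measurable_ofReal.comp ?_
    exact Measurable.indicator (by fun_prop) (measurableSet_metricSet n)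
  have hf0 : ∀ x d, 0 ≤ f x d := fun x d => indicator_nonneg (fun _ _ => le_max_right _ _) d
  have hfi : ∀ x, Integrable (f x) := by
    intro x
    rw [hf, integrable_indicator_iff (measurableSet_metricSet n)]
    exact int_max e x
  have hI : ∀ x, ∫⁻ d, ENNReal.ofReal (f x d) = ENNReal.ofReal (RR n e x * vol n) := by
    intro x
    rw [← ofReal_integral_eq_lintegral_ofReal (hfi x) (Filter.Eventually.of_forall (hf0 x))]
    congr 1
    unfold RR av
    have := (vol_pos n).ne'
    rw [div_mul_cancel₀ _ this, hf]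
    exact integral_indicator (measurableSet_metricSet n)
  have key := prekopa_leindler (hfm x) (hfm y) (hfm (a * x + b * y)) ha hb hab (by
    intro d d'
    by_cases hd : d ∈ metricSet n
    · by_cases hd' : d' ∈ metricSet n
      · have e1 : f x d = max (x - d e) 0 := indicator_of_mem hd _
        have e2 : f y d' = max (y - d' e) 0 := indicator_of_mem hd' _
        have e3 : f (a * x + b * y) (a • d + b • d') =
            max (a * x + b * y - (a * d e + b * d' e)) 0 := by
          have h1 := convex_mem ha hb hab hd hd'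
          have h2 : f (a * x + b * y) (a • d + b • d') =
              max (a * x + b * y - (a • d + b • d') e) 0 := indicator_of_mem h1 _
          rw [h2]
          simp [smul_eq_mul]
        rw [e1, e2, e3]
        rcases le_or_gt (x - d e) 0 with h1 | h1
        · rw [max_eq_right h1, ENNReal.ofReal_zero, ENNReal.zero_rpow_of_pos ha, zero_mul]
          exact bot_le
        rcases le_or_gt (y - d' e) 0 with h2 | h2
        · rw [max_eq_right h2, ENNReal.ofReal_zero, ENNReal.zero_rpow_of_pos hb, mul_zero]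
          exact bot_le
        rw [max_eq_left h1.le, max_eq_left h2.le]
        refine (amgm ha hb hab _ _).trans ?_
        rw [← ENNReal.ofReal_mul ha.le, ← ENNReal.ofReal_mul hb.le,
          ← ENNReal.ofReal_add (by positivity) (by positivity)]
        refine ENNReal.ofReal_le_ofReal ?_
        refine le_trans (le_of_eq ?_) (le_max_left _ _)
        ring
      · have e2 : f y d' = 0 := indicator_of_notMem hd' _
        rw [e2, ENNReal.ofReal_zero, ENNReal.zero_rpow_of_pos hb, mul_zero]
        exact bot_le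
    · have e1 : f x d = 0 := indicator_of_notMem hd _
      rw [e1, ENNReal.ofReal_zero, ENNReal.zero_rpow_of_pos ha, zero_mul]
      exact bot_le)
  rw [hI, hI, hI] at key
  have hx := RR_nonneg e x
  have hy := RR_nonneg e y
  have hz := RR_nonneg e (a * x + b * y)
  have hV := vol_pos n
  rw [ENNReal.ofReal_rpow_of_nonneg (by positivity) ha.le,
    ENNReal.ofReal_rpow_of_nonneg (by positivity) hb.le, ← ENNReal.ofReal_mul (by positivity),
    ENNReal.ofReal_le_ofReal_iff (by positivity), Real.mul_rpow hx hV.le, Real.mul_rpow hy hV.le]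
    at key
  have e1 : RR n e x ^ a * vol n ^ a * (RR n e y ^ b * vol n ^ b) =
      (RR n e x ^ a * RR n e y ^ b) * vol n := by
    have : vol n ^ a * vol n ^ b = vol n := by
      rw [← Real.rpow_add hV, hab, Real.rpow_one]
    calc RR n e x ^ a * vol n ^ a * (RR n e y ^ b * vol n ^ b)
        = (RR n e x ^ a * RR n e y ^ b) * (vol n ^ a * vol n ^ b) := by ring
      _ = _ := by rw [this]
  rw [e1] at key
  exact le_of_mul_le_mul_right key hV

/-- `P (d_e < 1)` -/
noncomputable def qq (n : ℕ) (e : Pair n) : ℝ :=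
  av n (fun d => (Iio (1:ℝ)).indicator (fun _ => (1:ℝ)) (d e))

lemma int_q (e : Pair n) :
    IntegrableOn (fun d : Pair n → ℝ => (Iio (1:ℝ)).indicator (fun _ => (1:ℝ)) (d e)) (metricSet n) := by
  refine integrable_comp (h := (Iio (1:ℝ)).indicator (fun _ => (1:ℝ)))
    (measurable_const.indicator measurableSet_Iio) (C := 1) ?_ e
  intro t _
  by_cases h : t ∈ Iio (1:ℝ)
  · rw [indicator_of_mem h]; simp
  · rw [indicator_of_notMem h]; simp

/-- step 4 -/
lemma RR_sub (e : Pair n) {h : ℝ} (hh : 0 ≤ h) : RR n e 1 - h * qq n e ≤ RR n e (1 - h) := by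
  have h1 : RR n e 1 ≤ RR n e (1 - h) + h * qq n e := by
    unfold RR qq
    rw [← av_mul, ← av_add (int_max e _) ((int_q e).const_mul h)]
    refine av_mono (int_max e 1) ((int_max e _).add ((int_q e).const_mul h)) (fun d _ => ?_)
    rcases lt_or_ge (d e) 1 with h1 | h1
    · rw [indicator_of_mem (show d e ∈ Iio (1:ℝ) from h1)]
      have := le_max_left (1 - h - d e) 0
      have h2 := le_max_right (1 - h - d e) 0
      refine max_le (by linarith) (by linarith)
    · rw [indicator_of_notMem (show d e ∉ Iio (1:ℝ) from not_lt.2 h1)]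
      have h2 := le_max_right (1 - h - d e) 0
      refine max_le (by linarith) (by linarith)
  linarith

lemma RR_add (e : Pair n) {τ : ℝ} (hτ : 0 ≤ τ) :
    RR n e 1 + τ * PP n e 0 (1 + τ) ≤ RR n e (1 + 2 * τ) := by
  unfold RR PP
  rw [← av_mul, ← av_add (int_max e _) ((int_ind e _ _).const_mul τ)]
  refine av_mono ((int_max e 1).add ((int_ind e _ _).const_mul τ)) (int_max e _) (fun d hd => ?_)
  have h0 := (hd.1 e).1
  rcases le_or_gt (d e) (1 + τ) with h1 | h1
  · rw [indicator_of_mem (show d e ∈ Ioc 0 (1 + τ) from ⟨h0, h1⟩)]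
    refine le_trans ?_ (le_max_left _ _)
    rcases le_or_gt (d e) 1 with h2 | h2
    · rw [max_eq_left (by linarith)]; linarith
    · rw [max_eq_right (by linarith)]; linarith
  · rw [indicator_of_notMem (fun h' => absurd h1 (not_lt.2 h'.2)), max_eq_right (by linarith)]
    have := le_max_right (1 + 2 * τ - d e) 0
    linarith

lemma RR_le_q (e : Pair n) : RR n e 1 ≤ qq n e := by
  unfold RR qq
  refine av_mono (int_max e 1) (int_q e) (fun d hd => ?_)
  have h0 := (hd.1 e).1
  rcases lt_or_ge (d e) 1 with h1 | h1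
  · rw [indicator_of_mem (show d e ∈ Iio (1:ℝ) from h1)]
    exact max_le (by linarith) zero_le_one
  · rw [indicator_of_notMem (show d e ∉ Iio (1:ℝ) from not_lt.2 h1)]
    exact max_le (by linarith) le_rfl

/-- step 5 -/
lemma q_ge (e : Pair n) {y : ℝ} (hy0 : 0 < y) (hy1 : y ≤ 1 / 32) (hy : RR n e 1 = y ^ 2) :
    y / 32 ≤ qq n e := by
  by_contra hc
  push Not at hc
  have hm : 0 < RR n e 1 := by rw [hy]; positivity
  have hq : 0 < qq n e := lt_of_lt_of_le hm (RR_le_q e)
  set h : ℝ := RR n e 1 / (2 * qq n e) with hh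
  have hh0 : 0 < h := by positivity
  have hh1 : 16 * y < h := by
    rw [hh, lt_div_iff₀ (by positivity), hy]
    nlinarith
  have h1 : RR n e 1 / 2 ≤ RR n e (1 - h) := by
    have := RR_sub e hh0.le
    have e1 : h * qq n e = RR n e 1 / 2 := by rw [hh]; field_simp
    linarith
  have h2 : 2 * RR n e 1 ≤ RR n e (1 + 2 * (8 * y)) := by
    have h3 := RR_add e (τ := 8 * y) (by positivity)
    have h4 := PP_ge e hy0 hy1 hy
    have h5 : 8 * y * (y / 8) ≤ 8 * y * PP n e 0 (1 + 8 * y) := by gcongr
    have h6 : 8 * y * (y / 8) = RR n e 1 := by rw [hy]; ring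
    linarith
  set a : ℝ := 16 * y / (h + 16 * y) with ha
  set b : ℝ := h / (h + 16 * y) with hb
  have hden : 0 < h + 16 * y := by positivity
  have ha0 : 0 < a := by positivity
  have hb0 : 0 < b := by positivity
  have hab : a + b = 1 := by rw [ha, hb]; field_simp; ring
  have hlt : a < b := by
    rw [ha, hb]
    gcongr
  have hpt : a * (1 - h) + b * (1 + 2 * (8 * y)) = 1 := by
    rw [ha, hb]; field_simp; ring
  have hlc := RR_logconcave e ha0 hb0 hab (1 - h) (1 + 2 * (8 * y))
  rw [hpt] at hlc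
  have h3 : (RR n e 1 / 2) ^ a * (2 * RR n e 1) ^ b ≤ RR n e 1 := by
    refine le_trans ?_ hlc
    have := Real.rpow_nonneg (RR_nonneg e (1 - h)) a
    gcongr
  have h4 : (RR n e 1 / 2) ^ a * (2 * RR n e 1) ^ b = RR n e 1 * 2 ^ (b - a) := by
    rw [Real.div_rpow hm.le two_pos.le, Real.mul_rpow two_pos.le hm.le, Real.rpow_sub two_pos]
    have : RR n e 1 ^ a * RR n e 1 ^ b = RR n e 1 := by
      rw [← Real.rpow_add hm, hab, Real.rpow_one]
    calc RR n e 1 ^ a / 2 ^ a * (2 ^ b * RR n e 1 ^ b)
        = (RR n e 1 ^ a * RR n e 1 ^ b) * (2 ^ b / 2 ^ a) := by ring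
      _ = _ := by rw [this]
  rw [h4] at h3
  have h5 : (1:ℝ) < 2 ^ (b - a) := Real.one_lt_rpow one_lt_two (by linarith)
  nlinarith

/-- lower bound for `P (d_e < 1)` -/
theorem q_lower (hn : 3 ≤ n) (e : Pair n) : 1 / 2880 / √n ≤ qq n e := by
  have hn' : (3:ℝ) ≤ n := by exact_mod_cast hn
  have hn0 : (0:ℝ) < n := by linarith
  have hs0 : 0 < √(n:ℝ) := Real.sqrt_pos.2 hn0
  have hs1 : 1 ≤ √(n:ℝ) := by
    rw [Real.one_le_sqrt]; linarith
  have hs2 : √(n:ℝ) ^ 2 = n := Real.sq_sqrt hn0.le
  have hN : (Fintype.card (Pair n) : ℝ) = n * (n - 1) / 2 := by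
    rw [Sym2.card_subtype_not_diag, Fintype.card_fin, Nat.cast_choose_two]
  have hN0 : (0:ℝ) < Fintype.card (Pair n) := by
    rw [hN]
    have : (0:ℝ) < n - 1 := by linarith
    positivity
  have hN1 : (Fintype.card (Pair n) : ℝ) ≤ n ^ 2 / 2 := by
    rw [hN]; nlinarith
  set y : ℝ := √(RR n e 1) with hy
  have hm := RR_nonneg e 1
  have hyy : RR n e 1 = y ^ 2 := (Real.sq_sqrt hm).symm
  have h1 := RR_one_ge e
  have h2 := log_vol_lower (n := n) hn
  set y0 : ℝ := Real.log (vol n) / (3 * Fintype.card (Pair n)) with hy0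
  have h3 : 1 / 90 / √n ≤ y0 := by
    rw [hy0, le_div_iff₀ (by positivity)]
    refine le_trans ?_ h2
    calc 1 / 90 / √(n:ℝ) * (3 * Fintype.card (Pair n)) ≤ 1 / 90 / √(n:ℝ) * (3 * (n ^ 2 / 2)) := by
          gcongr
      _ = n * √n / 60 := by
          field_simp
          rw [hs2]
          ring
  have h4 : y0 ≤ y := by
    rw [hy]
    apply Real.le_sqrt_of_sq_le
    exact h1
  have h5 : 0 < y := lt_of_lt_of_le (lt_of_lt_of_le (by positivity) h3) h4
  rcases le_or_gt y (1 / 32) with h6 | h6
  · refine le_trans ?_ (q_ge e h5 h6 hyy)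
    have : 1 / 2880 / √(n:ℝ) = 1 / 90 / √n / 32 := by ring
    rw [this]
    linarith
  · refine le_trans ?_ (RR_le_q e)
    rw [hyy]
    have h7 : (1 / 32 : ℝ) ^ 2 ≤ y ^ 2 := by gcongr
    have h8 : 1 / 2880 / √(n:ℝ) ≤ 1 / 2880 := div_le_self (by norm_num) hs1
    norm_num at h7 h8 ⊢
    linarith

end Pool.Agent.H.MP_1c6531_pr
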