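import Mathlib

set_option autoImplicit false

/-!
The polytope of metrics on `n` points with distances at most `2`, its volume and symmetry.
-/

namespace Pool.Agent.H.MP_1c6531_pr

open MeasureTheory Set

/-- Unordered pairs of distinct points of `Fin n`. -/
abbrev Pair (n : ℕ) : Type := {e : Sym2 (Fin n) // ¬ e.IsDiag}

/-- The unordered pair `{i, j}`. -/
def pr {n : ℕ} (i j : Fin n) (h : i ≠ j) : Pair n := ⟨s(i, j), by simpa using h⟩

/-- The set of metrics on `n` points with all distances in `(0, 2]`. -/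
def metricSet (n : ℕ) : Set (Pair n → ℝ) :=
  {d | (∀ e, 0 < d e ∧ d e ≤ 2) ∧
    ∀ (i j k : Fin n) (hij : i ≠ j) (hik : i ≠ k) (hkj : k ≠ j),
      d (pr i j hij) ≤ d (pr i k hik) + d (pr k j hkj)}

variable {n : ℕ}

lemma pr_comm (i j : Fin n) (h : i ≠ j) : pr i j h = pr j i h.symm :=
  Subtype.ext Sym2.eq_swap

lemma exists_pr (e : Pair n) : ∃ (i j : Fin n) (h : i ≠ j), e = pr i j h := by
  obtain ⟨e, he⟩ := e
  induction e using Sym2.ind with
  | _ i j => exact ⟨i, j, by simpa using he, rfl⟩

lemma metricSet_subset : metricSet n ⊆ Set.pi univ (fun _ => Ioc (0:ℝ) 2) := by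
  intro d hd
  simp only [Set.mem_pi, mem_univ, true_implies, mem_Ioc]
  exact hd.1

lemma measurableSet_metricSet (n : ℕ) : MeasurableSet (metricSet n) := by
  unfold metricSet
  refine MeasurableSet.inter ?_ ?_
  · have : {d : Pair n → ℝ | ∀ e, 0 < d e ∧ d e ≤ 2} = Set.pi univ (fun _ => Ioc 0 2) := by
      ext d; simp [Set.mem_pi]
    change MeasurableSet {d : Pair n → ℝ | ∀ e, 0 < d e ∧ d e ≤ 2}
    rw [this]
    exact MeasurableSet.univ_pi (fun _ => measurableSet_Ioc)
  · change MeasurableSet {d : Pair n → ℝ | ∀ (i j k : Fin n) (hij : i ≠ j) (hik : i ≠ k) (hkj : k ≠ j),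
      d (pr i j hij) ≤ d (pr i k hik) + d (pr k j hkj)}
    simp only [Set.ofPred_forall]
    refine IsClosed.measurableSet ?_
    refine isClosed_iInter fun i => isClosed_iInter fun j => isClosed_iInter fun k =>
      isClosed_iInter fun hij => isClosed_iInter fun hik => isClosed_iInter fun hkj => ?_
    exact isClosed_le (by fun_prop) (by fun_prop)

lemma convex_mem {a b : ℝ} (ha : 0 < a) (hb : 0 < b) (hab : a + b = 1) {x y : Pair n → ℝ}
    (hx : x ∈ metricSet n) (hy : y ∈ metricSet n) : a • x + b • y ∈ metricSet n := by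
  refine ⟨fun e => ?_, fun i j k hij hik hkj => ?_⟩
  · have h1 := hx.1 e
    have h2 := hy.1 e
    simp only [Pi.add_apply, Pi.smul_apply, smul_eq_mul]
    constructor
    · have := mul_pos ha h1.1
      have := mul_pos hb h2.1
      linarith
    · nlinarith [h1.2, h2.2]
  · have h1 := hx.2 i j k hij hik hkj
    have h2 := hy.2 i j k hij hik hkj
    simp only [Pi.add_apply, Pi.smul_apply, smul_eq_mul]
    nlinarith

lemma volume_ne_top (n : ℕ) : volume (metricSet n) ≠ ⊤ := by
  refine ne_top_of_le_ne_top ?_ (measure_mono metricSet_subset)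
  rw [volume_pi_pi]
  simp

lemma one_le_volume (n : ℕ) : 1 ≤ volume (metricSet n) := by
  have h : Set.pi univ (fun _ : Pair n => Icc (1:ℝ) 2) ⊆ metricSet n := by
    intro d hd
    simp only [Set.mem_pi, mem_univ, true_implies, mem_Icc] at hd
    refine ⟨fun e => ⟨by linarith [(hd e).1], (hd e).2⟩, fun i j k hij hik hkj => ?_⟩
    have h1 := (hd (pr i j hij)).2
    have h2 := (hd (pr i k hik)).1
    have h3 := (hd (pr k j hkj)).1
    linarith
  refine le_trans (le_of_eq ?_) (measure_mono h)
  rw [volume_pi_pi]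
  norm_num

/-- The volume of the metric polytope. -/
noncomputable def vol (n : ℕ) : ℝ := (volume (metricSet n)).toReal

lemma one_le_vol (n : ℕ) : 1 ≤ vol n := by
  unfold vol
  rw [← ENNReal.toReal_one]
  exact ENNReal.toReal_mono (volume_ne_top n) (one_le_volume n)

lemma vol_pos (n : ℕ) : 0 < vol n := lt_of_lt_of_le one_pos (one_le_vol n)

/-- Mean value over the metric polytope. -/
noncomputable def av (n : ℕ) (F : (Pair n → ℝ) → ℝ) : ℝ := (∫ d in metricSet n, F d) / vol n

instance : IsFiniteMeasure (volume.restrict (metricSet n)) :=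
  ⟨by rw [Measure.restrict_apply_univ]; exact (volume_ne_top n).lt_top⟩

lemma integrable_of_bdd {F : (Pair n → ℝ) → ℝ} (hF : Measurable F) {C : ℝ}
    (hC : ∀ d ∈ metricSet n, |F d| ≤ C) : IntegrableOn F (metricSet n) := by
  refine Integrable.of_bound hF.aestronglyMeasurable C ?_
  rw [ae_restrict_iff' (measurableSet_metricSet n)]
  exact Filter.Eventually.of_forall (fun d hd => by rw [Real.norm_eq_abs]; exact hC d hd)

lemma av_const (c : ℝ) : av n (fun _ => c) = c := by
  unfold av vol
  rw [setIntegral_const, measureReal_def, smul_eq_mul]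
  have := (vol_pos n).ne'
  unfold vol at this
  field_simp

lemma av_add {F G : (Pair n → ℝ) → ℝ} (hF : IntegrableOn F (metricSet n))
    (hG : IntegrableOn G (metricSet n)) : av n (fun d => F d + G d) = av n F + av n G := by
  unfold av
  rw [integral_add hF hG, add_div]

lemma av_mul (c : ℝ) (F : (Pair n → ℝ) → ℝ) : av n (fun d => c * F d) = c * av n F := by
  unfold av
  rw [integral_const_mul, mul_div_assoc]

lemma av_mono {F G : (Pair n → ℝ) → ℝ} (hF : IntegrableOn F (metricSet n))
    (hG : IntegrableOn G (metricSet n)) (h : ∀ d ∈ metricSet n, F d ≤ G d) : av n F ≤ av n G := by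
  unfold av
  have := vol_pos n
  gcongr ?_ / _
  exact setIntegral_mono_on hF hG (measurableSet_metricSet n) h

/-- The action of a permutation of the points on pairs. -/
def pairPerm (σ : Equiv.Perm (Fin n)) : Pair n ≃ Pair n where
  toFun e := ⟨Sym2.map σ e.1, by
    obtain ⟨e, he⟩ := e
    induction e using Sym2.ind with
    | _ i j => simpa using he⟩
  invFun e := ⟨Sym2.map σ.symm e.1, by
    obtain ⟨e, he⟩ := e
    induction e using Sym2.ind with
    | _ i j => simpa using he⟩
  left_inv e := by
    apply Subtype.ext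
    obtain ⟨e, he⟩ := e
    induction e using Sym2.ind with
    | _ i j => simp
  right_inv e := by
    apply Subtype.ext
    obtain ⟨e, he⟩ := e
    induction e using Sym2.ind with
    | _ i j => simp

lemma pairPerm_pr (σ : Equiv.Perm (Fin n)) (i j : Fin n) (h : i ≠ j) :
    pairPerm σ (pr i j h) = pr (σ i) (σ j) (σ.injective.ne h) := rfl

lemma comp_mem (σ : Equiv.Perm (Fin n)) {d : Pair n → ℝ} (hd : d ∈ metricSet n) :
    d ∘ pairPerm σ ∈ metricSet n :=
  ⟨fun _ => hd.1 _, fun i j k hij hik hkj => hd.2 (σ i) (σ j) (σ k) (σ.injective.ne hij)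
    (σ.injective.ne hik) (σ.injective.ne hkj)⟩

lemma pairPerm_symm (σ : Equiv.Perm (Fin n)) : (pairPerm σ).symm = pairPerm σ.symm := rfl

lemma exists_perm (e e' : Pair n) : ∃ σ : Equiv.Perm (Fin n), pairPerm σ e = e' := by
  obtain ⟨a, b, hab, rfl⟩ := exists_pr e
  obtain ⟨a', b', hab', rfl⟩ := exists_pr e'
  classical
  set σ1 : Equiv.Perm (Fin n) := Equiv.swap a a' with hσ1
  have h1 : σ1 a = a' := Equiv.swap_apply_left a a'
  have h2 : σ1 b ≠ a' := by
    rw [← h1]
    exact σ1.injective.ne hab.symm
  refine ⟨σ1.trans (Equiv.swap (σ1 b) b'), ?_⟩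
  rw [pairPerm_pr]
  have e1 : (σ1.trans (Equiv.swap (σ1 b) b')) a = a' := by
    rw [Equiv.trans_apply, h1]
    exact Equiv.swap_apply_of_ne_of_ne h2.symm hab'
  have e2 : (σ1.trans (Equiv.swap (σ1 b) b')) b = b' := by
    rw [Equiv.trans_apply]
    exact Equiv.swap_apply_left _ _
  apply Subtype.ext
  show s(_, _) = s(a', b')
  rw [e1, e2]

/-- By symmetry all distances have the same law. -/
lemma av_symm (h : ℝ → ℝ) (e e' : Pair n) : av n (fun d => h (d e)) = av n (fun d => h (d e')) := by
  obtain ⟨σ, hσ⟩ := exists_perm e' e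
  unfold av
  congr 1
  set T := MeasurableEquiv.piCongrLeft (fun _ : Pair n => ℝ) (pairPerm σ).symm with hT
  have hmp := volume_measurePreserving_piCongrLeft (fun _ : Pair n => ℝ) (pairPerm σ).symm
  have hTa : ∀ d : Pair n → ℝ, T d = d ∘ pairPerm σ := by
    intro d
    ext i
    simp [hT, MeasurableEquiv.piCongrLeft, Equiv.piCongrLeft]
  have hpre : T ⁻¹' (metricSet n) = metricSet n := by
    ext d
    rw [mem_preimage, hTa]
    constructor
    · intro hd
      have h2 := comp_mem σ.symm hd
      have e : (d ∘ pairPerm σ) ∘ pairPerm σ.symm = d := by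
        ext i
        simp only [Function.comp_apply]
        rw [← pairPerm_symm, Equiv.apply_symm_apply]
      rwa [e] at h2
    · exact comp_mem σ
  have := hmp.setIntegral_preimage_emb T.measurableEmbedding (fun d => h (d e')) (metricSet n)
  rw [show (⇑(MeasurableEquiv.piCongrLeft (fun _ : Pair n => ℝ) (pairPerm σ).symm)) = ⇑T from rfl,
    hpre] at this
  rw [← this]
  congr 1
  ext d
  rw [hTa, Function.comp_apply, hσ]

/-- Gibbs-type inequality. -/
theorem gibbs {h : ℝ → ℝ} (hm : Measurable h) {C : ℝ} (hC : ∀ x ∈ Ioc (0:ℝ) 2, |h x| ≤ C)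
    (hint : ∫ x in Ioc (0:ℝ) 2, Real.exp (h x) ≤ 1) (e0 : Pair n) :
    Real.log (vol n) + Fintype.card (Pair n) * av n (fun d => h (d e0)) ≤ 0 := by
  classical
  set φ : ℝ → ℝ := (Ioc (0:ℝ) 2).indicator (fun x => Real.exp (h x)) with hφ
  have hφ0 : ∀ x, 0 ≤ φ x := fun x => indicator_nonneg (fun _ _ => (Real.exp_pos _).le) x
  have hφi : Integrable φ := by
    rw [hφ, integrable_indicator_iff measurableSet_Ioc]
    refine Measure.integrableOn_of_bounded (M := Real.exp C) (by simp)
      (Real.continuous_exp.measurable.comp hm).aestronglyMeasurable ?_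
    rw [ae_restrict_iff' measurableSet_Ioc]
    refine Filter.Eventually.of_forall (fun x hx => ?_)
    rw [Real.norm_eq_abs, abs_of_pos (Real.exp_pos _)]
    exact Real.exp_le_exp.2 ((le_abs_self _).trans (hC x hx))
  have hprod : ∫ d : Pair n → ℝ, ∏ e, φ (d e) = (∫ x, φ x) ^ Fintype.card (Pair n) :=
    integral_fintype_prod_volume_eq_pow φ
  have hprodi : Integrable (fun d : Pair n → ℝ => ∏ e, φ (d e)) :=
    Integrable.fintype_prod (fun _ => hφi)
  have hφint : ∫ x, φ x = ∫ x in Ioc (0:ℝ) 2, Real.exp (h x) := integral_indicator measurableSet_Ioc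
  have hle1 : ∫ d : Pair n → ℝ, ∏ e, φ (d e) ≤ 1 := by
    rw [hprod, hφint]
    exact pow_le_one₀ (integral_nonneg (fun x => (Real.exp_pos _).le)) hint
  -- the exponent
  set Z : (Pair n → ℝ) → ℝ := fun d => ∑ e, h (d e) with hZ
  have hZe : ∀ d ∈ metricSet n, ∏ e, φ (d e) = Real.exp (Z d) := by
    intro d hd
    rw [hZ]
    simp only
    rw [Real.exp_sum]
    refine Finset.prod_congr rfl (fun e _ => ?_)
    rw [hφ]
    exact indicator_of_mem (s := Ioc (0:ℝ) 2) ⟨(hd.1 e).1, (hd.1 e).2⟩ (fun x => Real.exp (h x))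
  have hhe : ∀ e, IntegrableOn (fun d : Pair n → ℝ => h (d e)) (metricSet n) := fun e =>
    integrable_of_bdd (hm.comp (measurable_pi_apply e)) (fun d hd => hC _ (hd.1 e))
  have hZi : IntegrableOn Z (metricSet n) := integrable_finsetSum _ (fun e _ => hhe e)
  have hexpi : IntegrableOn (fun d => Real.exp (Z d)) (metricSet n) := by
    refine (hprodi.integrableOn (s := metricSet n)).congr_fun ?_ (measurableSet_metricSet n)
    exact fun d hd => hZe d hd
  have hexp : ∫ d in metricSet n, Real.exp (Z d) ≤ 1 := by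
    refine le_trans ?_ hle1
    rw [← setIntegral_congr_fun (measurableSet_metricSet n) (fun d hd => hZe d hd)]
    exact setIntegral_le_integral hprodi
      (Filter.Eventually.of_forall (fun d => Finset.prod_nonneg (fun e _ => hφ0 _)))
  set m : ℝ := av n Z with hmdef
  have hmZ : m * vol n = ∫ d in metricSet n, Z d := by
    rw [hmdef]
    unfold av
    have := (vol_pos n).ne'
    field_simp
  have hjen : Real.exp m * vol n ≤ ∫ d in metricSet n, Real.exp (Z d) := by
    have h1 : ∫ d in metricSet n, Real.exp m * (1 + (Z d - m)) ≤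
        ∫ d in metricSet n, Real.exp (Z d) := by
      refine setIntegral_mono_on ?_ hexpi (measurableSet_metricSet n) (fun d _ => ?_)
      · exact (((integrable_const (1:ℝ)).add (hZi.sub (integrable_const m))).const_mul _)
      · have : Real.exp (Z d) = Real.exp m * Real.exp (Z d - m) := by
          rw [← Real.exp_add]; congr 1; ring
        rw [this]
        have h2 := Real.add_one_le_exp (Z d - m)
        have := Real.exp_pos m
        nlinarith
    refine le_trans (le_of_eq ?_) h1
    rw [integral_const_mul]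
    congr 1
    have e1 : ∫ d in metricSet n, (1 + (Z d - m)) = (∫ d in metricSet n, (1:ℝ)) +
        ((∫ d in metricSet n, Z d) - ∫ d in metricSet n, m) := by
      rw [← integral_sub hZi (integrable_const m)]
      exact integral_add (integrable_const (1:ℝ)) (hZi.sub (integrable_const m))
    rw [e1, setIntegral_const, setIntegral_const, measureReal_def, smul_eq_mul, smul_eq_mul, ← hmZ]
    unfold vol
    ring
  have hmval : m = Fintype.card (Pair n) * av n (fun d => h (d e0)) := by
    rw [hmdef]
    unfold av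
    rw [integral_finsetSum _ (fun e _ => hhe e), Finset.sum_div]
    have : ∀ e ∈ (Finset.univ : Finset (Pair n)), (∫ d in metricSet n, h (d e)) / vol n =
        (∫ d in metricSet n, h (d e0)) / vol n := fun e _ => av_symm h e e0
    rw [Finset.sum_congr rfl this, Finset.sum_const, Finset.card_univ, nsmul_eq_mul]
  rw [← hmval]
  have h3 : Real.exp m * vol n ≤ 1 := hjen.trans hexp
  have h4 : Real.log (Real.exp m * vol n) ≤ 0 :=
    Real.log_nonpos (mul_nonneg (Real.exp_pos m).le (vol_pos n).le) h3
  rw [Real.log_mul (Real.exp_pos m).ne' (vol_pos n).ne', Real.log_exp] at h4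
  linarith

end Pool.Agent.H.MP_1c6531_pr
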