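import Pool.Agent.H.MP_1c6531_pr.Metric

set_option autoImplicit false

/-!
Lower bound `exp (n √n / 60)` for the volume of the metric polytope.
-/

namespace Pool.Agent.H.MP_1c6531_pr

open MeasureTheory Set

variable {n : ℕ}

/-- expectation of an up-set event under the product weights -/
lemma sum_weight_superset {ι : Type*} [Fintype ι] [DecidableEq ι] (p : ℝ) (A : Finset ι) :
    ∑ L : Finset ι, (if A ⊆ L then p ^ L.card * (1 - p) ^ (Lᶜ).card else 0) = p ^ A.card := by
  have h := Finset.prod_add (fun _ : ι => p) (fun e : ι => if e ∈ A then (0:ℝ) else 1 - p)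
    Finset.univ
  have e1 : ∏ e : ι, (p + if e ∈ A then (0:ℝ) else 1 - p) = p ^ A.card := by
    have : ∀ e : ι, (p + if e ∈ A then (0:ℝ) else 1 - p) = if e ∈ A then p else 1 := by
      intro e
      split_ifs <;> ring
    simp only [this]
    rw [Finset.prod_ite_mem, Finset.univ_inter, Finset.prod_const]
  rw [e1, Finset.powerset_univ] at h
  rw [h]
  refine Finset.sum_congr rfl (fun L _ => ?_)
  rw [Finset.prod_const, ← Finset.compl_eq_univ_sdiff]
  by_cases hA : A ⊆ L
  · rw [if_pos hA]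
    congr 1
    rw [← Finset.prod_const]
    refine Finset.prod_congr rfl (fun e he => ?_)
    rw [if_neg]
    intro heA
    exact (Finset.mem_compl.1 he) (hA heA)
  · rw [if_neg hA]
    obtain ⟨e, heA, heL⟩ := Finset.not_subset.1 hA
    rw [Finset.prod_eq_zero (Finset.mem_compl.2 heL) (by rw [if_pos heA]), mul_zero]

open Classical in
/-- pairs outside `L` that close a path of two edges of `L` -/
noncomputable def SS (L : Finset (Pair n)) : Finset (Pair n) :=
  Finset.univ.filter (fun e => e ∉ L ∧ ∃ (i j k : Fin n) (hij : i ≠ j) (hik : i ≠ k) (hkj : k ≠ j),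
    e = pr i j hij ∧ pr i k hik ∈ L ∧ pr k j hkj ∈ L)

lemma pr_ne {i j k : Fin n} (hij : i ≠ j) (hik : i ≠ k) (hkj : k ≠ j) :
    pr i k hik ≠ pr k j hkj := by
  intro h
  have h1 : s(i, k) = s(k, j) := congrArg Subtype.val h
  rw [Sym2.eq_iff] at h1
  rcases h1 with ⟨h1, _⟩ | ⟨h1, _⟩
  · exact hik h1
  · exact hij h1

open Classical in
lemma card_SS_le (L : Finset (Pair n)) :
    ((SS L).card : ℝ) ≤ ∑ t : Fin n × Fin n × Fin n,
      (if h : t.1 ≠ t.2.1 ∧ t.1 ≠ t.2.2 ∧ t.2.2 ≠ t.2.1 then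
        (if ({pr t.1 t.2.2 h.2.1, pr t.2.2 t.2.1 h.2.2} : Finset (Pair n)) ⊆ L then (1:ℝ) else 0)
        else 0) := by
  -- choose a witness triple for each element
  have hw : ∀ e ∈ SS L, ∃ t : Fin n × Fin n × Fin n, ∃ (h : t.1 ≠ t.2.1 ∧ t.1 ≠ t.2.2 ∧ t.2.2 ≠ t.2.1),
      e = pr t.1 t.2.1 h.1 ∧ ({pr t.1 t.2.2 h.2.1, pr t.2.2 t.2.1 h.2.2} : Finset (Pair n)) ⊆ L := by
    intro e he
    obtain ⟨_, i, j, k, hij, hik, hkj, h1, h2, h3⟩ := (Finset.mem_filter.1 he).2
    refine ⟨(i, j, k), ⟨hij, hik, hkj⟩, h1, ?_⟩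
    intro x hx
    rw [Finset.mem_insert, Finset.mem_singleton] at hx
    rcases hx with rfl | rfl
    · exact h2
    · exact h3
  have hnn : ∀ s : Fin n × Fin n × Fin n, (0:ℝ) ≤ (if h : s.1 ≠ s.2.1 ∧ s.1 ≠ s.2.2 ∧ s.2.2 ≠ s.2.1 then
        (if ({pr s.1 s.2.2 h.2.1, pr s.2.2 s.2.1 h.2.2} : Finset (Pair n)) ⊆ L then (1:ℝ) else 0)
        else 0) := by
    intro s
    split_ifs <;> norm_num
  rcases (SS L).eq_empty_or_nonempty with hemp | ⟨e0, he0⟩
  · rw [hemp, Finset.card_empty, Nat.cast_zero]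
    exact Finset.sum_nonneg (fun s _ => hnn s)
  have : Nonempty (Fin n × Fin n × Fin n) := by
    obtain ⟨t, _⟩ := hw e0 he0
    exact ⟨t⟩
  choose! t ht using hw
  have hinj : Set.InjOn t (SS L : Finset (Pair n)) := by
    intro e he e' he' h
    obtain ⟨h1, h2, _⟩ := ht e he
    obtain ⟨h1', h2', _⟩ := ht e' he'
    rw [h2, h2']
    congr 1
    · rw [h]
    · rw [h]
  calc ((SS L).card : ℝ) = ∑ e ∈ SS L, (1:ℝ) := by simp
    _ = ∑ s ∈ (SS L).image t, (1:ℝ) := by rw [Finset.sum_image hinj]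
    _ ≤ ∑ s ∈ (SS L).image t, (if h : s.1 ≠ s.2.1 ∧ s.1 ≠ s.2.2 ∧ s.2.2 ≠ s.2.1 then
        (if ({pr s.1 s.2.2 h.2.1, pr s.2.2 s.2.1 h.2.2} : Finset (Pair n)) ⊆ L then (1:ℝ) else 0)
        else 0) := by
      refine Finset.sum_le_sum (fun s hs => ?_)
      obtain ⟨e, he, rfl⟩ := Finset.mem_image.1 hs
      obtain ⟨h1, _, h3⟩ := ht e he
      rw [dif_pos h1, if_pos h3]
    _ ≤ _ := by
      exact Finset.sum_le_sum_of_subset_of_nonneg (Finset.subset_univ _) (fun s _ _ => hnn s)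

open Classical in
/-- mean number of closed paths -/
lemma mean_SS_le {p : ℝ} (hp0 : 0 ≤ p) (hp1 : p ≤ 1) :
    ∑ L : Finset (Pair n), (p ^ L.card * (1 - p) ^ (Lᶜ).card) * ((SS L).card : ℝ) ≤
      (n:ℝ) ^ 3 * p ^ 2 := by
  have hw : ∀ L : Finset (Pair n), 0 ≤ p ^ L.card * (1 - p) ^ (Lᶜ).card := by
    intro L
    have : 0 ≤ 1 - p := by linarith
    positivity
  calc ∑ L : Finset (Pair n), (p ^ L.card * (1 - p) ^ (Lᶜ).card) * ((SS L).card : ℝ)
      ≤ ∑ L : Finset (Pair n), (p ^ L.card * (1 - p) ^ (Lᶜ).card) *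
        ∑ t : Fin n × Fin n × Fin n,
      (if h : t.1 ≠ t.2.1 ∧ t.1 ≠ t.2.2 ∧ t.2.2 ≠ t.2.1 then
        (if ({pr t.1 t.2.2 h.2.1, pr t.2.2 t.2.1 h.2.2} : Finset (Pair n)) ⊆ L then (1:ℝ) else 0)
        else 0) := Finset.sum_le_sum (fun L _ => mul_le_mul_of_nonneg_left (card_SS_le L) (hw L))
    _ = ∑ t : Fin n × Fin n × Fin n, ∑ L : Finset (Pair n), (p ^ L.card * (1 - p) ^ (Lᶜ).card) *
      (if h : t.1 ≠ t.2.1 ∧ t.1 ≠ t.2.2 ∧ t.2.2 ≠ t.2.1 then
        (if ({pr t.1 t.2.2 h.2.1, pr t.2.2 t.2.1 h.2.2} : Finset (Pair n)) ⊆ L then (1:ℝ) else 0)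
        else 0) := by
      simp only [Finset.mul_sum]
      exact Finset.sum_comm
    _ ≤ ∑ t : Fin n × Fin n × Fin n, p ^ 2 := by
      refine Finset.sum_le_sum (fun t _ => ?_)
      by_cases h : t.1 ≠ t.2.1 ∧ t.1 ≠ t.2.2 ∧ t.2.2 ≠ t.2.1
      · simp only [dif_pos h]
        have h1 := sum_weight_superset p ({pr t.1 t.2.2 h.2.1, pr t.2.2 t.2.1 h.2.2} : Finset (Pair n))
        rw [Finset.card_pair (pr_ne h.1 h.2.1 h.2.2)] at h1
        rw [← h1]
        refine le_of_eq (Finset.sum_congr rfl (fun L _ => ?_))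
        rw [mul_ite, mul_one, mul_zero]
      · simp only [dif_neg h, mul_zero, Finset.sum_const_zero]
        positivity
    _ = (n:ℝ) ^ 3 * p ^ 2 := by
      rw [Finset.sum_const, Finset.card_univ, nsmul_eq_mul]
      simp only [Fintype.card_prod, Fintype.card_fin]
      push_cast
      ring

open Classical in
/-- the sides of the boxes -/
noncomputable def side (ε : ℝ) (L : Finset (Pair n)) (e : Pair n) : Set ℝ :=
  if e ∈ L then Ico (1 - ε) (1 + ε) else if e ∈ SS L then Ico (1 + ε) (2 - 2 * ε)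
    else Ico (1 + ε) 2

lemma box_subset {ε : ℝ} (h0 : 0 < ε) (h1 : ε ≤ 1 / 10) (L : Finset (Pair n)) :
    Set.pi univ (side ε L) ⊆ metricSet n := by
  intro d hd
  have hmem : ∀ e, d e ∈ side ε L e := fun e => hd e (mem_univ e)
  have hL : ∀ e ∈ L, 1 - ε ≤ d e ∧ d e < 1 + ε := by
    intro e he
    have := hmem e
    unfold side at this
    rw [if_pos he] at this
    exact this
  have hS : ∀ e ∈ SS L, 1 + ε ≤ d e ∧ d e < 2 - 2 * ε := by
    intro e he
    have := hmem e
    unfold side at this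
    rw [if_neg (Finset.mem_filter.1 he).2.1, if_pos he] at this
    exact this
  have hO : ∀ e, e ∉ L → 1 + ε ≤ d e := by
    intro e he
    by_cases h : e ∈ SS L
    · exact (hS e h).1
    · have := hmem e
      unfold side at this
      rw [if_neg he, if_neg h] at this
      exact this.1
  have hlow : ∀ e, 1 - ε ≤ d e := by
    intro e
    by_cases h : e ∈ L
    · exact (hL e h).1
    · have := hO e h
      linarith
  have hup : ∀ e, d e < 2 := by
    intro e
    by_cases h : e ∈ L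
    · have := (hL e h).2
      linarith
    · by_cases h' : e ∈ SS L
      · have := (hS e h').2
        linarith
      · have := hmem e
        unfold side at this
        rw [if_neg h, if_neg h'] at this
        exact this.2
  refine ⟨fun e => ⟨by linarith [hlow e], (hup e).le⟩, fun i j k hij hik hkj => ?_⟩
  by_contra hc
  push Not at hc
  have a1 := hlow (pr i k hik)
  have a2 := hlow (pr k j hkj)
  have a3 := hup (pr i j hij)
  have m1 : pr i k hik ∈ L := by
    by_contra h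
    have := hO _ h
    linarith
  have m2 : pr k j hkj ∈ L := by
    by_contra h
    have := hO _ h
    linarith
  by_cases h : pr i j hij ∈ L
  · have := (hL _ h).2
    linarith
  · have h2 : pr i j hij ∈ SS L :=
      Finset.mem_filter.2 ⟨Finset.mem_univ _, h, i, j, k, hij, hik, hkj, rfl, m1, m2⟩
    have := (hS _ h2).2
    linarith

lemma box_disjoint {ε : ℝ} (h0 : 0 < ε) (h1 : ε ≤ 1 / 10) {L L' : Finset (Pair n)} (hne : L ≠ L') :
    Disjoint (Set.pi univ (side ε L)) (Set.pi univ (side ε L')) := by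
  rw [Set.disjoint_left]
  intro d hd hd'
  apply hne
  have key : ∀ L : Finset (Pair n), d ∈ Set.pi univ (side ε L) → ∀ e, e ∈ L ↔ d e < 1 + ε := by
    intro L hd e
    have := hd e (mem_univ e)
    unfold side at this
    constructor
    · intro he
      rw [if_pos he] at this
      exact this.2
    · intro he
      by_contra h
      rw [if_neg h] at this
      split_ifs at this
      · exact absurd this.1 (not_le.2 he)
      · exact absurd this.1 (not_le.2 he)
  ext e
  rw [key L hd e, key L' hd' e]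

lemma measurableSet_side (ε : ℝ) (L : Finset (Pair n)) (e : Pair n) :
    MeasurableSet (side ε L e) := by
  unfold side
  split_ifs <;> exact measurableSet_Ico

lemma SS_disjoint (L : Finset (Pair n)) : Disjoint L (SS L) := by
  rw [Finset.disjoint_left]
  intro e he h
  exact (Finset.mem_filter.1 h).2.1 he

lemma volume_box {ε : ℝ} (h0 : 0 < ε) (h1 : ε ≤ 1 / 10) (L : Finset (Pair n)) :
    (volume (Set.pi univ (side ε L))).toReal =
      (2 * ε) ^ L.card * (1 - ε) ^ (Lᶜ).card * ((1 - 3 * ε) / (1 - ε)) ^ (SS L).card := by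
  classical
  rw [volume_pi_pi, ENNReal.toReal_prod]
  have h1e : (0:ℝ) < 1 - ε := by linarith
  have hval : ∀ e, (volume (side ε L e)).toReal =
      (if e ∈ L then 2 * ε else 1) * (if e ∈ Lᶜ then 1 - ε else 1) *
        (if e ∈ SS L then (1 - 3 * ε) / (1 - ε) else 1) := by
    intro e
    unfold side
    by_cases h : e ∈ L
    · have h2 : e ∉ SS L := Finset.disjoint_left.1 (SS_disjoint L) h
      have h3 : e ∉ Lᶜ := by simpa using h
      simp only [if_pos h, if_neg h2, if_neg h3]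
      rw [Real.volume_Ico, ENNReal.toReal_ofReal (by linarith)]
      ring
    · have h3 : e ∈ Lᶜ := by simpa using h
      by_cases h2 : e ∈ SS L
      · simp only [if_neg h, if_pos h2, if_pos h3]
        rw [Real.volume_Ico, ENNReal.toReal_ofReal (by linarith)]
        field_simp
        ring
      · simp only [if_neg h, if_neg h2, if_pos h3]
        rw [Real.volume_Ico, ENNReal.toReal_ofReal (by linarith)]
        ring
  simp only [hval]
  rw [Finset.prod_mul_distrib, Finset.prod_mul_distrib, Finset.prod_ite_mem, Finset.prod_ite_mem,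
    Finset.prod_ite_mem, Finset.univ_inter, Finset.univ_inter, Finset.univ_inter,
    Finset.prod_const, Finset.prod_const, Finset.prod_const]

/-- lower bound for the volume as a function of `ε` -/
lemma log_vol_ge {ε : ℝ} (h0 : 0 < ε) (h1 : ε ≤ 1 / 10) :
    Fintype.card (Pair n) * Real.log (1 + ε) - (n:ℝ) ^ 3 * (2 * ε) ^ 2 * (2 * ε / (1 - 3 * ε)) ≤
      Real.log (vol n) := by
  classical
  set p : ℝ := 2 * ε / (1 + ε) with hp
  set ρ : ℝ := (1 - 3 * ε) / (1 - ε) with hρ
  have h1e : (0:ℝ) < 1 - ε := by linarith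
  have h3e : (0:ℝ) < 1 - 3 * ε := by linarith
  have hρ0 : 0 < ρ := by positivity
  have hρ1 : ρ ≤ 1 := by rw [hρ, div_le_one h1e]; linarith
  have hp0 : 0 < p := by positivity
  have hp1 : p ≤ 1 := by rw [hp, div_le_one (by linarith)]; linarith
  have hp2 : p ≤ 2 * ε := by
    rw [hp, div_le_iff₀ (by linarith)]
    nlinarith
  set w : Finset (Pair n) → ℝ := fun L => p ^ L.card * (1 - p) ^ (Lᶜ).card with hw
  have hw0 : ∀ L, 0 ≤ w L := by
    intro L
    have : 0 ≤ 1 - p := by linarith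
    simp only [hw]
    positivity
  have hw1 : ∑ L, w L = 1 := by
    have := sum_weight_superset (ι := Pair n) p ∅
    simpa [hw] using this
  -- sum of the volumes
  have hsum : ∑ L : Finset (Pair n), (volume (Set.pi univ (side ε L))).toReal ≤ vol n := by
    unfold vol
    rw [← ENNReal.toReal_sum (fun L _ => ?_)]
    · refine ENNReal.toReal_mono (volume_ne_top n) ?_
      rw [← measure_biUnion_finset]
      · refine measure_mono ?_
        exact iUnion₂_subset (fun L _ => box_subset h0 h1 L)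
      · intro L _ L' _ hne
        exact box_disjoint h0 h1 hne
      · intro L _
        exact MeasurableSet.univ_pi (fun e => measurableSet_side ε L e)
    · exact ne_top_of_le_ne_top (volume_ne_top n) (measure_mono (box_subset h0 h1 L))
  have hterm : ∀ L : Finset (Pair n), (volume (Set.pi univ (side ε L))).toReal =
      (1 + ε) ^ Fintype.card (Pair n) * (w L * Real.exp ((SS L).card * Real.log ρ)) := by
    intro L
    rw [volume_box h0 h1 L, ← hρ]
    have e1 : Real.exp ((SS L).card * Real.log ρ) = ρ ^ (SS L).card := by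
      rw [Real.exp_nat_mul, Real.exp_log hρ0]
    have e2 : 2 * ε = (1 + ε) * p := by rw [hp]; field_simp
    have e3 : 1 - ε = (1 + ε) * (1 - p) := by rw [hp]; field_simp; ring
    have e4 : L.card + (Lᶜ).card = Fintype.card (Pair n) := by
      rw [Finset.card_add_card_compl]
    rw [e1]
    simp only [hw]
    rw [← e4, pow_add]
    conv_lhs => rw [e2, e3, mul_pow, mul_pow]
    ring
  have hjen : Real.exp (∑ L, w L * ((SS L).card * Real.log ρ)) ≤
      ∑ L, w L * Real.exp ((SS L).card * Real.log ρ) := by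
    have := convexOn_exp.map_sum_le (t := (Finset.univ : Finset (Finset (Pair n)))) (w := w)
      (p := fun L => ((SS L).card : ℝ) * Real.log ρ) (fun L _ => hw0 L) hw1 (fun L _ => mem_univ _)
    simpa using this
  have hlogρ : -(2 * ε / (1 - 3 * ε)) ≤ Real.log ρ := by
    have h2 : Real.log (ρ⁻¹) ≤ ρ⁻¹ - 1 := Real.log_le_sub_one_of_pos (by positivity)
    rw [Real.log_inv] at h2
    have h3 : ρ⁻¹ - 1 = 2 * ε / (1 - 3 * ε) := by
      rw [hρ]
      field_simp
      ring
    rw [h3] at h2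
    linarith
  have hlogρ0 : Real.log ρ ≤ 0 := Real.log_nonpos hρ0.le hρ1
  have hmean : ∑ L, w L * ((SS L).card : ℝ) ≤ (n:ℝ) ^ 3 * p ^ 2 := mean_SS_le hp0.le hp1
  have hexp2 : (n:ℝ) ^ 3 * p ^ 2 * Real.log ρ ≤ ∑ L, w L * ((SS L).card * Real.log ρ) := by
    have : ∑ L, w L * ((SS L).card * Real.log ρ) = (∑ L, w L * ((SS L).card : ℝ)) * Real.log ρ := by
      rw [Finset.sum_mul]
      refine Finset.sum_congr rfl (fun L _ => by ring)
    rw [this]
    exact mul_le_mul_of_nonpos_right hmean hlogρ0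
  have hV : (1 + ε) ^ Fintype.card (Pair n) * Real.exp ((n:ℝ) ^ 3 * p ^ 2 * Real.log ρ) ≤ vol n := by
    calc (1 + ε) ^ Fintype.card (Pair n) * Real.exp ((n:ℝ) ^ 3 * p ^ 2 * Real.log ρ)
        ≤ (1 + ε) ^ Fintype.card (Pair n) * ∑ L, w L * Real.exp ((SS L).card * Real.log ρ) := by
          gcongr
          exact (Real.exp_le_exp.2 hexp2).trans hjen
      _ = ∑ L : Finset (Pair n), (volume (Set.pi univ (side ε L))).toReal := by
          rw [Finset.mul_sum]
          exact Finset.sum_congr rfl (fun L _ => (hterm L).symm)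
      _ ≤ vol n := hsum
  have hlog := Real.log_le_log (by positivity) hV
  rw [Real.log_mul (by positivity) (Real.exp_pos _).ne', Real.log_pow, Real.log_exp] at hlog
  refine le_trans ?_ hlog
  have h5 : -((n:ℝ) ^ 3 * (2 * ε) ^ 2 * (2 * ε / (1 - 3 * ε))) ≤ (n:ℝ) ^ 3 * p ^ 2 * Real.log ρ := by
    have h6 : (n:ℝ) ^ 3 * p ^ 2 ≤ (n:ℝ) ^ 3 * (2 * ε) ^ 2 := by gcongr
    have h7 : 0 ≤ (n:ℝ) ^ 3 * p ^ 2 := by positivity
    have h8 : 0 ≤ 2 * ε / (1 - 3 * ε) := by positivity
    calc -((n:ℝ) ^ 3 * (2 * ε) ^ 2 * (2 * ε / (1 - 3 * ε)))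
        ≤ -((n:ℝ) ^ 3 * p ^ 2 * (2 * ε / (1 - 3 * ε))) := by
          have := mul_le_mul_of_nonneg_right h6 h8
          linarith
      _ = (n:ℝ) ^ 3 * p ^ 2 * (-(2 * ε / (1 - 3 * ε))) := by ring
      _ ≤ (n:ℝ) ^ 3 * p ^ 2 * Real.log ρ := mul_le_mul_of_nonneg_left hlogρ h7
  linarith

/-- `log vol ≥ n √n / 60` -/
theorem log_vol_lower (hn : 3 ≤ n) : (n:ℝ) * √n / 60 ≤ Real.log (vol n) := by
  have hn' : (3:ℝ) ≤ n := by exact_mod_cast hn
  have hn0 : (0:ℝ) < n := by linarith
  set s : ℝ := √n with hs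
  have hs0 : 0 < s := Real.sqrt_pos.2 hn0
  have hs2 : s ^ 2 = n := Real.sq_sqrt hn0.le
  have hs1 : (17 / 10 : ℝ) ≤ s := by
    rw [hs]
    apply Real.le_sqrt_of_sq_le
    norm_num
    linarith
  set ε : ℝ := 1 / (16 * s) with hε
  have hε0 : 0 < ε := by positivity
  have hε1 : ε ≤ 1 / 27 := by
    rw [hε]
    apply one_div_le_one_div_of_le (by norm_num)
    linarith
  have hes : ε * s = 1 / 16 := by rw [hε]; field_simp
  refine le_trans ?_ (log_vol_ge (n := n) hε0 (by linarith))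
  have hN : (Fintype.card (Pair n) : ℝ) = n * (n - 1) / 2 := by
    rw [Sym2.card_subtype_not_diag, Fintype.card_fin, Nat.cast_choose_two]
  have hlog : ε * (27 / 28) ≤ Real.log (1 + ε) := by
    have h1 := Real.one_sub_inv_le_log_of_pos (show 0 < 1 + ε by linarith)
    refine le_trans ?_ h1
    have : 1 - (1 + ε)⁻¹ = ε / (1 + ε) := by field_simp; ring
    rw [this, le_div_iff₀ (by linarith)]
    nlinarith
  have hden : 2 * ε / (1 - 3 * ε) ≤ 9 / 4 * ε := by
    rw [div_le_iff₀ (by linarith)]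
    nlinarith
  have h2 : (n:ℝ) ^ 3 * (2 * ε) ^ 2 * (2 * ε / (1 - 3 * ε)) ≤ (n:ℝ) ^ 3 * (2 * ε) ^ 2 * (9 / 4 * ε) := by
    gcongr
  have h3 : (n:ℝ) ^ 3 * (2 * ε) ^ 2 * (9 / 4 * ε) = 9 / 4096 * (n * s) := by
    have : (n:ℝ) ^ 3 * (2 * ε) ^ 2 * (9 / 4 * ε) = 9 * (ε * s) ^ 3 * (n * s) := by
      rw [← hs2]; ring
    rw [this, hes]
    ring
  have h4 : (n:ℝ) ^ 2 / 3 ≤ n * (n - 1) / 2 := by nlinarith
  have h5 : (n:ℝ) ^ 2 / 3 * (ε * (27 / 28)) ≤ Fintype.card (Pair n) * Real.log (1 + ε) := by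
    rw [hN]
    have h8 : (0:ℝ) ≤ n * (n - 1) / 2 := le_trans (by positivity) h4
    gcongr
  have h6 : (n:ℝ) ^ 2 / 3 * (ε * (27 / 28)) = 9 / 448 * (n * s) := by
    have : (n:ℝ) ^ 2 / 3 * (ε * (27 / 28)) = 9 / 28 * (ε * s) * (n * s) := by
      rw [← hs2]; ring
    rw [this, hes]
    ring
  have h7 : 0 < (n:ℝ) * s := by positivity
  rw [h3] at h2
  rw [h6] at h5
  linarith

end Pool.Agent.H.MP_1c6531_pr
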